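import Pool.Agent.W2helper75.FD.Fin5

set_option autoImplicit false

/-!
# MP_e2f79e_pr, Q1: the frog model with death on Cayley graphs of elementary amenable groups

Definitions (namespace `Pool.Agent.W2helper75.FD`). `law V S lam` (`Stm.lean`)
is the law of the data `ω : V → Dat S`: `(ω v).1` is the Poisson(`lam`) number of particles at
`v`, and particle `i` of `v` has i.i.d. `Exp(1)` waiting times `((ω v).2 i).1` and i.i.d. uniform
moves `((ω v).2 i).2` in `S`, all independent. With the moves `g ↦ g * s` the particle performs the
rate one continuous time simple random walk of the Cayley graph. `Visited mv t o ω` is the set of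
the vertices visited by active particles of lifetime `t` (each particle of a visited vertex is
activated and lives for time `t`), `Surv mv t o` is the event that it is infinite, and
`tc Γ S lam` is the supremum of the `t ≥ 0` for which survival from `1` has probability zero.

`EA` (`Stm4.lean`): the smallest class of groups that contains the finite and the abelian groups
and is closed under extensions and directed unions, the elementary amenable groups. `VInd Q`: every
infinite finitely generated group that embeds into `Q` has a finite index subgroup that maps onto
`ℤ`. `VCyc Q` (`Fin4.lean`): `Q` has a cyclic subgroup of finite index. `CaseB Γ`: `Γ` has a finite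
index subgroup with a homomorphism onto `ℤ` whose kernel is not finitely generated. `PlaneS Γ`
(`Stm5.lean`): some Schreier graph `L\Γ` is coarsely a plane, a half plane or a quadrant.
-/

namespace Pool.Agent.Results.MP_e2f79e_pr.ElementaryAmenableGroups

open Pool.Agent.W2helper75.FD MeasureTheory
open scoped ENNReal NNReal

theorem result (Γ : Type) [Group Γ]
    (hΓ : (∃ (H : Subgroup Γ) (Q : Type) (_ : Group Q) (π : H →* Q), H.FiniteIndex ∧
        Function.Surjective π ∧ (EA Q ∨ VInd Q) ∧ ¬ VCyc Q) ∨ CaseB Γ ∨ PlaneS Γ)
    (S : Finset Γ) [Nonempty S] [MeasurableSpace S] [DiscreteMeasurableSpace S]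
    (hS : ∀ s ∈ S, s⁻¹ ∈ S) (hgen : Subgroup.closure (S : Set Γ) = ⊤) (lam : ℝ≥0)
    (hlam : 0 < lam) : tc Γ S lam < ⊤ :=
  main5 Γ hΓ S hS hgen lam hlam

end Pool.Agent.Results.MP_e2f79e_pr.ElementaryAmenableGroups
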